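import Mathlib
import Pool.Agent.Helper18.BraidFrame

set_option autoImplicit false

namespace Pool.Agent.Results.MP_31c3fe_co.GeodeticTwo

open Pool.Agent.Helper18.BraidFrame

/-- A Coxeter matrix is of type Lambda if it is simply laced (all off-diagonal entries are
`2` or `3`) and its Coxeter graph (edges: entries equal to `3`) has no 3-cycle. -/
def IsTypeLambda {B : Type*} (M : CoxeterMatrix B) : Prop :=
  (∀ s t : B, s ≠ t → M s t = 2 ∨ M s t = 3) ∧
    ∀ s t u : B, ¬ (M s t = 3 ∧ M t u = 3 ∧ M s u = 3)

/-- `y` is obtained from the word `x` by one braid move: a consecutive factor `s t s` with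
`m(s,t) = 3` is replaced by `t s t`. -/
def BraidMove {B : Type*} (M : CoxeterMatrix B) (x y : List B) : Prop :=
  ∃ (a b : List B) (s t : B), M s t = 3 ∧ x = a ++ [s, t, s] ++ b ∧ y = a ++ [t, s, t] ++ b

/-- The braid class of a word: all words reached by finitely many braid moves. -/
def braidClass {B : Type*} (M : CoxeterMatrix B) (α : List B) : Set (List B) :=
  {β | Relation.ReflTransGen (BraidMove M) α β}

theorem BraidMove.symm {B : Type*} {M : CoxeterMatrix B} {x y : List B}
    (h : BraidMove M x y) : BraidMove M y x := by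
  obtain ⟨a, b, s, t, hst, hx, hy⟩ := h
  exact ⟨a, b, t, s, by rw [M.symmetric]; exact hst, hy, hx⟩

theorem BraidMove.ne {B : Type*} {M : CoxeterMatrix B} {x y : List B}
    (h : BraidMove M x y) : x ≠ y := by
  obtain ⟨a, b, s, t, hst, rfl, rfl⟩ := h
  intro h
  simp at h
  obtain ⟨rfl, -⟩ := h
  rw [M.diagonal] at hst
  omega

/-- The braid graph of a word: vertices are the words of its braid class, edges are single
braid moves. -/
def braidGraph {B : Type*} (M : CoxeterMatrix B) (α : List B) :
    SimpleGraph (braidClass M α) where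
  Adj x y := BraidMove M (x : List B) (y : List B)
  symm := ⟨fun _ _ h => h.symm⟩
  loopless := ⟨fun _ h => h.ne rfl⟩

/-- `I(u,v)`: the vertices lying on at least one shortest path from `u` to `v`. -/
def interval {V : Type*} (G : SimpleGraph V) (u v : V) : Set V :=
  {w | ∃ p : G.Walk u v, p.IsPath ∧ p.length = G.dist u v ∧ w ∈ p.support}

/-- The geodetic closure of a set of vertices. -/
def geodeticClosure {V : Type*} (G : SimpleGraph V) (X : Set V) : Set V :=
  ⋃ u ∈ X, ⋃ v ∈ X, interval G u v

/-- The geodetic number: the least size of a set of vertices with geodetic closure everything. -/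
noncomputable def geodeticNumber {V : Type*} (G : SimpleGraph V) : ℕ :=
  sInf {n | ∃ X : Finset V, X.card = n ∧ geodeticClosure G (X : Set V) = Set.univ}

section Words

variable {B : Type*} (M : CoxeterMatrix B)

/-- A list as a function on the integers. -/
def toFun (l : List B) (k : ℤ) : Option B := if 0 ≤ k then l[k.toNat]? else none

/-- The edge relation on letters. -/
def Rel (a b : Option B) : Prop := ∃ s t, a = some s ∧ b = some t ∧ M s t = 3

theorem toFun_natCast (l : List B) (n : ℕ) : toFun l (n : ℤ) = l[n]? := by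
  simp [toFun]

theorem toFun_injective {l l' : List B} (h : toFun l = toFun l') : l = l' := by
  apply List.ext_getElem?
  intro n
  rw [← toFun_natCast, h, toFun_natCast]

theorem rel_symm (a b : Option B) (h : Rel M a b) : Rel M b a := by
  obtain ⟨s, t, rfl, rfl, h⟩ := h
  exact ⟨t, s, rfl, rfl, by rw [M.symmetric]; exact h⟩

theorem rel_triangle (hM : IsTypeLambda M) (a b c : Option B) (h1 : Rel M a b)
    (h2 : Rel M b c) (h3 : Rel M a c) : False := by
  obtain ⟨s, t, rfl, rfl, h1⟩ := h1
  obtain ⟨t', u, e, rfl, h2⟩ := h2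
  obtain ⟨s', u', e', e'', h3⟩ := h3
  rw [Option.some.injEq] at e e' e''
  subst e e' e''
  exact hM.2 _ _ _ ⟨h1, h2, h3⟩

theorem stepAt_of_move (a b : List B) {s t : B} (h : M s t = 3) :
    StepAt (Rel M) (a.length : ℤ) (toFun (a ++ [s, t, s] ++ b))
      (toFun (a ++ [t, s, t] ++ b)) := by
  have e1 : ((a.length : ℤ) + 1) = ((a.length + 1 : ℕ) : ℤ) := by push_cast; ring
  have e2 : ((a.length : ℤ) + 2) = ((a.length + 2 : ℕ) : ℤ) := by push_cast; ring
  have g0 : ∀ x y z : B, toFun (a ++ [x, y, z] ++ b) (a.length : ℤ) = some x := by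
    intro x y z
    rw [toFun_natCast]
    simp
  have g1 : ∀ x y z : B, toFun (a ++ [x, y, z] ++ b) ((a.length : ℤ) + 1) = some y := by
    intro x y z
    rw [e1, toFun_natCast]
    simp
  have g2 : ∀ x y z : B, toFun (a ++ [x, y, z] ++ b) ((a.length : ℤ) + 2) = some z := by
    intro x y z
    rw [e2, toFun_natCast]
    simp
  refine ⟨?_, ?_, ?_, ?_, ?_, ?_⟩
  · rw [g0, g1]; exact ⟨s, t, rfl, rfl, h⟩
  · rw [g0, g2]
  · rw [g0, g1]
  · rw [g0, g1]
  · rw [g1, g2]
  · intro j h0 h1 h2
    unfold toFun
    split_ifs with hj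
    · obtain ⟨n, rfl⟩ := Int.eq_ofNat_of_zero_le hj
      simp only [Int.toNat_natCast]
      have h0' : n ≠ a.length := by intro h; apply h0; rw [h]
      have h1' : n ≠ a.length + 1 := by intro h; apply h1; rw [h]; push_cast; ring
      have h2' : n ≠ a.length + 2 := by intro h; apply h2; rw [h]; push_cast; ring
      by_cases hn : n < a.length
      · rw [List.append_assoc, List.append_assoc, List.getElem?_append_left hn,
          List.getElem?_append_left hn]
      · have hn3 : a.length + 3 ≤ n := by omega
        rw [List.getElem?_append_right (by simp; omega),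
          List.getElem?_append_right (by simp; omega)]
        simp
    · rfl

theorem split_of_getElem? {l : List B} {n : ℕ} {x y z : B} (h0 : l[n]? = some x)
    (h1 : l[n + 1]? = some y) (h2 : l[n + 2]? = some z) :
    l = l.take n ++ [x, y, z] ++ l.drop (n + 3) := by
  obtain ⟨l0, e0⟩ := List.getElem?_eq_some_iff.1 h0
  obtain ⟨l1, e1⟩ := List.getElem?_eq_some_iff.1 h1
  obtain ⟨l2, e2⟩ := List.getElem?_eq_some_iff.1 h2
  conv_lhs => rw [← List.take_append_drop n l]
  rw [List.drop_eq_getElem_cons l0, List.drop_eq_getElem_cons l1, List.drop_eq_getElem_cons l2,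
    e0, e1, e2]
  simp

theorem move_of_stepAt {l : List B} {k : ℤ} {g : ℤ → Option B}
    (h : StepAt (Rel M) k (toFun l) g) : ∃ l', BraidMove M l l' ∧ toFun l' = g := by
  obtain ⟨s, t, hs, ht, hst⟩ := h.1
  have h2 := h.2.1
  have hk : 0 ≤ k := by
    by_contra hk
    simp [toFun, hk] at hs
  obtain ⟨n, rfl⟩ := Int.eq_ofNat_of_zero_le hk
  have e1 : ((n : ℤ) + 1) = ((n + 1 : ℕ) : ℤ) := by push_cast; ring
  have e2 : ((n : ℤ) + 2) = ((n + 2 : ℕ) : ℤ) := by push_cast; ring
  rw [hs, e2, toFun_natCast] at h2
  rw [toFun_natCast] at hs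
  rw [e1, toFun_natCast] at ht
  have hl := split_of_getElem? hs ht h2
  have hlen : (l.take n).length = n := by
    have := (List.getElem?_eq_some_iff.1 hs).1
    simp; omega
  refine ⟨l.take n ++ [t, s, t] ++ l.drop (n + 3), ⟨l.take n, l.drop (n + 3), s, t, hst, hl, rfl⟩,
    ?_⟩
  have := stepAt_of_move M (l.take n) (l.drop (n + 3)) hst
  rw [← hl, hlen] at this
  exact Frame.StepAt.unique this h

theorem exists_list_of_reachable {α : List B} {g : ℤ → Option B}
    (h : Relation.ReflTransGen (Step (Rel M)) (toFun α) g) :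
    ∃ β ∈ braidClass M α, toFun β = g := by
  induction h with
  | refl => exact ⟨α, Relation.ReflTransGen.refl, rfl⟩
  | tail _ hstep ih =>
    obtain ⟨β, hβ, rfl⟩ := ih
    obtain ⟨k, hk⟩ := hstep
    obtain ⟨β', hm, rfl⟩ := move_of_stepAt M hk
    exact ⟨β', hβ.tail hm, rfl⟩

end Words

section Reduced

variable {B W : Type*} [Group W] {M : CoxeterMatrix B} (cs : CoxeterSystem M W)

theorem wordProd_braid {s t : B} (h : M s t = 3) :
    cs.wordProd [s, t, s] = cs.wordProd [t, s, t] := by
  have := cs.wordProd_braidWord_eq s t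
  have h' : M t s = 3 := by rw [M.symmetric]; exact h
  rw [CoxeterSystem.braidWord, CoxeterSystem.braidWord, h, h'] at this
  simpa [CoxeterSystem.alternatingWord] using this.symm

theorem isReduced_of_move {x y : List B} (h : BraidMove M x y) (hx : cs.IsReduced x) :
    cs.IsReduced y := by
  obtain ⟨a, b, s, t, hst, rfl, rfl⟩ := h
  unfold CoxeterSystem.IsReduced at hx ⊢
  rw [cs.wordProd_append, cs.wordProd_append] at hx ⊢
  rw [← wordProd_braid cs hst, hx]
  simp

theorem isReduced_of_mem {α β : List B} (h : β ∈ braidClass M α) (hα : cs.IsReduced α) :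
    cs.IsReduced β := by
  unfold braidClass at h
  simp only [Set.mem_ofPred_eq] at h
  induction h with
  | refl => exact hα
  | tail _ hm ih => exact isReduced_of_move cs hm ih

theorem no_double {β : List B} (hβ : cs.IsReduced β) {n : ℕ} {s : B} (h0 : β[n]? = some s)
    (h1 : β[n + 1]? = some s) : False := by
  obtain ⟨l0, e0⟩ := List.getElem?_eq_some_iff.1 h0
  obtain ⟨l1, e1⟩ := List.getElem?_eq_some_iff.1 h1
  have h2 := (hβ.drop n).take 2
  rw [List.drop_eq_getElem_cons l0, List.drop_eq_getElem_cons l1, e0, e1] at h2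
  simp only [List.take_succ_cons, List.take_zero] at h2
  unfold CoxeterSystem.IsReduced at h2
  rw [cs.wordProd_cons, cs.wordProd_cons, cs.wordProd_nil, mul_one, cs.simple_mul_simple_self,
    cs.length_one] at h2
  simp at h2

end Reduced

section Main

variable {B W : Type*} [Group W] {M : CoxeterMatrix B} (cs : CoxeterSystem M W)

/-- The maximal frame of a reduced word. -/
theorem exists_frame (hM : IsTypeLambda M) {α : List B} (hα : cs.IsReduced α) :
    ∃ F : Frame (Rel M),
      (∀ x ∈ braidClass M α, ∃ X, F.Valid X ∧ F.word X = toFun x) ∧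
      (∀ X, F.Valid X → ∃ x ∈ braidClass M α, toFun x = F.word X) ∧
      (∀ X, F.Valid X → ∀ k g, StepAt (Rel M) k (F.word X) g →
        k ∈ F.C ∧ F.Valid (Frame.toggle X k) ∧ g = F.word (Frame.toggle X k)) := by
  classical
  have hR := rel_symm M
  have hT := rel_triangle M hM
  have H : ∀ g, Relation.ReflTransGen (Step (Rel M)) (toFun α) g → ∀ k, g k = g (k + 1) →
      ∀ b, ¬ Rel M (g k) b := by
    intro g hg k hk b hb
    obtain ⟨β, hβ, rfl⟩ := exists_list_of_reachable M hg
    obtain ⟨s, t, hs, -, -⟩ := hb
    have hk0 : 0 ≤ k := by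
      by_contra hk0
      simp [toFun, hk0] at hs
    obtain ⟨n, rfl⟩ := Int.eq_ofNat_of_zero_le hk0
    rw [hs] at hk
    have e1 : ((n : ℤ) + 1) = ((n + 1 : ℕ) : ℤ) := by push_cast; ring
    rw [toFun_natCast] at hs
    rw [e1, toFun_natCast] at hk
    exact no_double cs (isReduced_of_mem cs hβ hα) hs hk.symm
  have Hpos : ∀ g, Relation.ReflTransGen (Step (Rel M)) (toFun α) g → ∀ k b,
      Rel M (g k) b → 0 ≤ k := by
    intro g hg k b hb
    obtain ⟨β, hβ, rfl⟩ := exists_list_of_reachable M hg
    obtain ⟨s, t, hs, -, -⟩ := hb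
    by_contra hk0
    simp [toFun, hk0] at hs
  let P : ℕ → Prop := fun n => ∃ (F : Frame (Rel M)) (X : ℤ → Bool), F.Valid X ∧
    F.word X = toFun α ∧ F.C.card = n
  have hP0 : P 0 := by
    let F0 : Frame (Rel M) :=
      { C := ∅, e := fun _ _ => none, σ := fun _ => false, τ := fun _ => false, w := toFun α
        nonneg := by simp, nonadj := by simp, edge := by simp, shared := by simp
        distinct := by simp }
    refine ⟨F0, fun _ => false, ?_, ?_, rfl⟩
    · intro k hk
      exact absurd hk (Finset.notMem_empty k)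
    · funext j
      exact F0.word_const _ (Finset.notMem_empty _) (Finset.notMem_empty _)
        (Finset.notMem_empty _)
  have hPb : ∀ n, P n → n ≤ α.length := by
    rintro n ⟨F, X, hX, hw, rfl⟩
    have hsub : F.C ⊆ (Finset.range α.length).image (fun n : ℕ => (n : ℤ)) := by
      intro k hk
      have h0 := F.nonneg k hk
      obtain ⟨n, rfl⟩ := Int.eq_ofNat_of_zero_le h0
      rw [Finset.mem_image]
      refine ⟨n, ?_, rfl⟩
      rw [Finset.mem_range]
      have hc := F.word_center X hk
      have e1 : ((n : ℤ) + 1) = ((n + 1 : ℕ) : ℤ) := by push_cast; ring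
      rw [hw, e1, toFun_natCast] at hc
      have he := F.edge _ hk
      have : ∃ s, F.e (n : ℤ) (X (n : ℤ)) = some s := by
        obtain ⟨s, t, h1, h2, -⟩ := he
        cases X (n : ℤ)
        · exact ⟨s, h1⟩
        · exact ⟨t, h2⟩
      obtain ⟨s, hs⟩ := this
      rw [hs] at hc
      have := (List.getElem?_eq_some_iff.1 hc).1
      omega
    have := Finset.card_le_card hsub
    exact this.trans (Finset.card_image_le.trans (by simp))
  have hmax : ∃ n, P n ∧ ¬ P (n + 1) := by
    by_contra hcon
    push Not at hcon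
    have hall : ∀ n, P n := by
      intro n
      induction n with
      | zero => exact hP0
      | succ n ih => exact hcon n ih
    have := hPb _ (hall (α.length + 1))
    omega
  obtain ⟨n, ⟨F, X0, hX0, hw0, hn⟩, hn1⟩ := hmax
  have hmax' : ∀ (F' : Frame (Rel M)) (X' : ℤ → Bool), F'.Valid X' → F'.word X' = toFun α →
      F'.C.card ≠ F.C.card + 1 := by
    intro F' X' h1 h2 h3
    exact hn1 ⟨F', X', h1, h2, by rw [h3, hn]⟩
  have hcl : ∀ X, F.Valid X → ∀ k g, StepAt (Rel M) k (F.word X) g →
        k ∈ F.C ∧ F.Valid (Frame.toggle X k) ∧ g = F.word (Frame.toggle X k) :=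
    fun X hX k g hs => F.closure hR hT H Hpos hX0 hw0 hmax' hX hs
  refine ⟨F, ?_, ?_, hcl⟩
  · intro x hx
    unfold braidClass at hx
    simp only [Set.mem_ofPred_eq] at hx
    induction hx with
    | refl => exact ⟨X0, hX0, hw0⟩
    | tail _ hm ih =>
      obtain ⟨X, hX, hwX⟩ := ih
      obtain ⟨a, b, s, t, hst, rfl, rfl⟩ := hm
      have hs := stepAt_of_move M a b hst
      rw [← hwX] at hs
      obtain ⟨-, hv, hg⟩ := hcl X hX _ _ hs
      exact ⟨_, hv, hg.symm⟩
  · intro X hX
    have := F.reachable hR hX0 hX
    rw [hw0] at this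
    exact exists_list_of_reachable M this

theorem exists_walk {α : List B} (F : Frame (Rel M)) (n : ℕ) :
    ∀ (x y : braidClass M α) (X Y : ℤ → Bool), F.Valid X → F.Valid Y →
      F.word X = toFun (x : List B) → F.word Y = toFun (y : List B) →
      (F.diff X Y).card = n → ∃ p : (braidGraph M α).Walk x y, p.length = n := by
  induction n with
  | zero =>
    intro x y X Y hX hY hx hy hn
    have h0 : F.diff X Y = ∅ := Finset.card_eq_zero.1 hn
    have h1 : F.word X = F.word Y := by
      apply F.word_congr
      intro k hk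
      by_contra h
      have : k ∈ F.diff X Y := by rw [F.mem_diff]; exact ⟨hk, h⟩
      rw [h0] at this
      simp at this
    have h2 : x = y := by
      apply Subtype.ext
      apply toFun_injective
      rw [← hx, ← hy, h1]
    subst h2
    exact ⟨SimpleGraph.Walk.nil, rfl⟩
  | succ n ih =>
    intro x y X Y hX hY hx hy hn
    have hne : (F.diff X Y).Nonempty := by
      rw [← Finset.card_pos]; omega
    obtain ⟨k, hk, hv⟩ := F.exists_toggle_closer hX hY hne
    have hk' := (F.mem_diff).1 hk
    have hstep := F.stepAt_toggle (rel_symm M) hk'.1 hX hv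
    rw [hx] at hstep
    obtain ⟨l, hl, hlw⟩ := move_of_stepAt M hstep
    have hmem : l ∈ braidClass M α := x.2.tail hl
    obtain ⟨p, hp⟩ := ih ⟨l, hmem⟩ y (Frame.toggle X k) Y hv hY hlw.symm hy (by
      rw [F.diff_toggle hk, Finset.card_erase_of_mem hk]
      omega)
    have hadj : (braidGraph M α).Adj x ⟨l, hmem⟩ := hl
    exact ⟨SimpleGraph.Walk.cons hadj p, by simp [hp]⟩

theorem exists_interval_eq_univ (hM : IsTypeLambda M) {α : List B} (hα : cs.IsReduced α) :
    ∃ u v : braidClass M α, interval (braidGraph M α) u v = Set.univ := by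
  classical
  obtain ⟨F, h1, h2, h3⟩ := exists_frame cs hM hα
  obtain ⟨u, hu, hu'⟩ := h2 F.top F.valid_top
  obtain ⟨v, hv, hv'⟩ := h2 _ F.valid_not_top
  refine ⟨⟨u, hu⟩, ⟨v, hv⟩, ?_⟩
  -- potential
  let ψ : braidClass M α → ℕ := fun z =>
    (F.C.filter (fun k => toFun (z : List B) (k + 1) ≠ toFun v (k + 1))).card
  have hirr : ∀ a, ¬ Rel M a a := fun a h => rel_triangle M hM a a a h h h
  have hψstep : ∀ x y : braidClass M α, (braidGraph M α).Adj x y → ψ x ≤ ψ y + 1 := by
    intro x y hxy
    obtain ⟨X, hX, hwX⟩ := h1 x x.2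
    obtain ⟨a, b, s, t, hst, hx, hy⟩ := hxy
    have hs := stepAt_of_move M a b hst
    rw [← hx, ← hy, ← hwX] at hs
    obtain ⟨hk, -, -⟩ := h3 X hX _ _ hs
    rw [hwX] at hs
    have hsub : F.C.filter (fun k => toFun (x : List B) (k + 1) ≠ toFun v (k + 1)) ⊆
        insert (a.length : ℤ)
          (F.C.filter (fun k => toFun (y : List B) (k + 1) ≠ toFun v (k + 1))) := by
      intro k hk'
      rw [Finset.mem_filter] at hk'
      rw [Finset.mem_insert, Finset.mem_filter]
      by_cases e : k = a.length
      · exact Or.inl e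
      · right
        refine ⟨hk'.1, ?_⟩
        have c1 : k + 1 ≠ (a.length : ℤ) := by
          intro h
          have := F.nonadj k hk'.1
          rw [h] at this
          exact this hk
        have c2 : k + 1 ≠ (a.length : ℤ) + 1 := by omega
        have c3 : k + 1 ≠ (a.length : ℤ) + 2 := by
          intro h
          have := F.nonadj _ hk
          have e' : k = (a.length : ℤ) + 1 := by omega
          rw [← e'] at this
          exact this hk'.1
        rw [hs.2.2.2.2.2 _ c1 c2 c3]
        exact hk'.2
    exact (Finset.card_le_card hsub).trans (Finset.card_insert_le _ _)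
  have hψwalk : ∀ (x y : braidClass M α) (p : (braidGraph M α).Walk x y),
      ψ x ≤ ψ y + p.length := by
    intro x y p
    induction p with
    | nil => simp
    | cons h p ih =>
      have := hψstep _ _ h
      rw [SimpleGraph.Walk.length_cons]
      omega
  have hψv : ψ ⟨v, hv⟩ = 0 := by
    simp [ψ]
  have hψu : ψ ⟨u, hu⟩ = F.C.card := by
    simp only [ψ]
    rw [Finset.filter_true_of_mem]
    intro k hk
    rw [hu', hv', F.word_center _ hk, F.word_center _ hk]
    intro h
    have := F.edge k hk
    revert h
    cases F.top k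
    · simp only [Bool.not_false]
      intro h
      rw [h] at this
      exact hirr _ this
    · simp only [Bool.not_true]
      intro h
      rw [h] at this
      exact hirr _ this
  rw [Set.eq_univ_iff_forall]
  intro w
  obtain ⟨Z, hZ, hwZ⟩ := h1 w w.2
  obtain ⟨p, hp⟩ := exists_walk (α := α) F _ ⟨u, hu⟩ w F.top Z F.valid_top hZ hu'.symm hwZ rfl
  obtain ⟨q, hq⟩ := exists_walk (α := α) F _ w ⟨v, hv⟩ Z _ hZ F.valid_not_top hwZ hv'.symm rfl
  have hcard : (F.diff F.top Z).card + (F.diff Z (fun k => !F.top k)).card = F.C.card := by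
    rw [← Finset.card_union_of_disjoint]
    · congr 1
      ext k
      rw [Finset.mem_union, F.mem_diff, F.mem_diff]
      constructor
      · rintro (h | h) <;> exact h.1
      · intro h
        by_cases e : F.top k = Z k
        · right
          refine ⟨h, ?_⟩
          rw [← e]
          cases F.top k <;> simp
        · exact Or.inl ⟨h, e⟩
    · rw [Finset.disjoint_left]
      intro k hk1 hk2
      rw [F.mem_diff] at hk1 hk2
      have := hk1.2
      have := hk2.2
      revert hk1 hk2
      cases F.top k <;> cases Z k <;> simp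
  have hlen : (p.append q).length = F.C.card := by
    rw [SimpleGraph.Walk.length_append, hp, hq, hcard]
  have hdist : (braidGraph M α).dist ⟨u, hu⟩ ⟨v, hv⟩ = (p.append q).length := by
    apply le_antisymm
    · exact SimpleGraph.dist_le _
    · rw [hlen]
      obtain ⟨r, hr⟩ := (SimpleGraph.Reachable.exists_walk_length_eq_dist ⟨p.append q⟩)
      have := hψwalk _ _ r
      rw [hψv, hψu, hr] at this
      omega
  refine ⟨p.append q, ?_, hdist.symm, ?_⟩
  · exact SimpleGraph.Walk.isPath_of_length_eq_dist _ hdist.symm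
  · rw [SimpleGraph.Walk.mem_support_append_iff]
    left
    exact p.end_mem_support

/-- In every Coxeter system of type Lambda, every braid graph of a reduced expression whose
braid class has at least two elements has geodetic number `2`; in fact some interval `I(u,v)`
is the whole braid class. -/
theorem result {B W : Type*} [Group W] (M : CoxeterMatrix B) (cs : CoxeterSystem M W)
    (hM : IsTypeLambda M) (α : List B) (hα : cs.IsReduced α)
    (h2 : (braidClass M α).Nontrivial) :
    geodeticNumber (braidGraph M α) = 2 ∧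
      ∃ u v : braidClass M α, interval (braidGraph M α) u v = Set.univ := by
  classical
  obtain ⟨u, v, huv⟩ := exists_interval_eq_univ cs hM hα
  refine ⟨?_, u, v, huv⟩
  have : Nontrivial (braidClass M α) := h2.coe_sort
  have hself : ∀ x : braidClass M α, interval (braidGraph M α) x x = {x} := by
    intro x
    ext y
    simp only [interval, Set.mem_ofPred_eq, Set.mem_singleton_iff, SimpleGraph.dist_self]
    constructor
    · rintro ⟨p, -, hp, hy⟩
      have := SimpleGraph.Walk.eq_of_length_eq_zero hp
      cases p with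
      | nil => simpa using hy
      | cons h p => simp at hp
    · rintro rfl
      exact ⟨SimpleGraph.Walk.nil, by simp, rfl, by simp⟩
  have hne : u ≠ v := by
    rintro rfl
    rw [hself] at huv
    obtain ⟨y, hy⟩ := exists_ne u
    have : y ∈ ({u} : Set (braidClass M α)) := by rw [huv]; trivial
    exact hy (by simpa using this)
  unfold geodeticNumber
  have hmem : 2 ∈ {n | ∃ X : Finset (braidClass M α), X.card = n ∧
      geodeticClosure (braidGraph M α) (X : Set (braidClass M α)) = Set.univ} := by
    refine ⟨{u, v}, Finset.card_pair hne, ?_⟩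
    rw [Set.eq_univ_iff_forall]
    intro w
    unfold geodeticClosure
    simp only [Set.mem_iUnion]
    refine ⟨u, by simp, v, by simp, ?_⟩
    rw [huv]; trivial
  apply le_antisymm
  · exact Nat.sInf_le hmem
  · apply le_csInf ⟨2, hmem⟩
    rintro n ⟨X, hX, hcl⟩
    by_contra hlt
    have h1 : X.card ≤ 1 := by omega
    rw [Finset.card_le_one_iff_subset_singleton] at h1
    obtain ⟨x, hx⟩ := h1
    obtain ⟨y, hy⟩ := exists_ne x
    have : y ∈ geodeticClosure (braidGraph M α) (X : Set (braidClass M α)) := by
      rw [hcl]; trivial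
    unfold geodeticClosure at this
    simp only [Set.mem_iUnion] at this
    obtain ⟨a, ha, b, hb, hab⟩ := this
    have ha' := Finset.mem_singleton.1 (hx ha)
    have hb' := Finset.mem_singleton.1 (hx hb)
    rw [ha', hb', hself] at hab
    exact hy (by simpa using hab)

end Main

end Pool.Agent.Results.MP_31c3fe_co.GeodeticTwo
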